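import Mathlib

/-!
# MP_298761_ag: what the algebraic loci are if the variational Hodge conjecture fails

`Bases`: complex varieties with their complex points, among them the Zariski open subsets of the
affine spaces. `FlatTheory`: flat sections over varieties (a smooth proper family `X → S`, an
`S`-linear admissible subcategory and a global section of `K₀ᵗᵒᵖ ⊗ ℚ`), with the set of the points at
which the section is algebraic, and the elementary operations on such data.
-/

set_option autoImplicit false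

namespace Pool.Agent.Work.MP_298761_al.AlgebraicLoci

open MvPolynomial

/-- A Zariski open subset of `ℂⁿ`. -/
structure ZOpen (n : ℕ) where
  /-- the set -/
  carrier : Set (Fin n → ℂ)
  isOpen : ∃ I : Set (MvPolynomial (Fin n) ℂ), carrier = {x | ∃ p ∈ I, eval x p ≠ 0}

/-- Zariski closed subsets of `ℂⁿ`. -/
def ZClosed {n : ℕ} (Z : Set (Fin n → ℂ)) : Prop :=
  ∃ I : Set (MvPolynomial (Fin n) ℂ), Z = {x | ∀ p ∈ I, eval x p = 0}

/-- A polynomial map `ℂᵐ → ℂⁿ`. -/
noncomputable def polyMap {m n : ℕ} (g : Fin n → MvPolynomial (Fin m) ℂ) (x : Fin m → ℂ) : Fin n → ℂ :=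
  fun i => eval x (g i)

/-- Complex varieties (bases of families; the empty scheme is allowed) and their points.

`Corr S U` stands for the correspondences `S ← C → U` with `q : C → U` finite étale over an open
subset `U` of the affine line and any morphism `p : C → S`; `fib Γ u` is the finite set
`p (q⁻¹ u)`. -/
structure Bases where
  /-- the varieties -/
  Obj : Type
  /-- the complex points -/
  Pt : Obj → Type
  /-- the Zariski topology on the complex points -/
  zariski : ∀ S : Obj, TopologicalSpace (Pt S)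
  /-- open subsets of affine spaces are varieties -/
  aff : ∀ {n : ℕ}, ZOpen n → Obj
  /-- the points of an open subset of an affine space -/
  pt : ∀ {n : ℕ} (U : ZOpen n), Pt (aff U) ≃ U.carrier
  /-- correspondences -/
  Corr : Obj → ZOpen 1 → Type
  /-- points of `S` which correspond to `u` -/
  fib : ∀ {S : Obj} {U : ZOpen 1}, Corr S U → (Fin 1 → ℂ) → Set (Pt S)
  /-- any two points `x`, `y` of a variety lie on a curve which has a finite map to the projective
  line, totally ramified at `x` and with no other zero; after a Kummer base change it is étale over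
  `0`. -/
  exists_corr : ∀ (S : Obj) (x y : Pt S), ∃ (U : ZOpen 1) (Γ : Corr S U),
    (0 : Fin 1 → ℂ) ∈ U.carrier ∧ fib Γ 0 = {x} ∧
      y ∈ @closure _ (zariski S) (⋃ u ∈ U.carrier, fib Γ u)

/-- Flat sections over varieties. -/
structure FlatTheory (B : Bases) where
  /-- flat sections over `S` -/
  Sec : B.Obj → Type
  /-- the points at which a flat section is algebraic -/
  Alg : ∀ {S : B.Obj}, Sec S → Set (B.Pt S)
  /-- base change along a polynomial map -/
  pull : ∀ {m n : ℕ} (U : ZOpen m) (V : ZOpen n) (g : Fin n → MvPolynomial (Fin m) ℂ),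
    (∀ x ∈ U.carrier, polyMap g x ∈ V.carrier) → Sec (B.aff V) → Sec (B.aff U)
  alg_pull : ∀ {m n : ℕ} (U : ZOpen m) (V : ZOpen n) (g : Fin n → MvPolynomial (Fin m) ℂ)
    (h : ∀ x ∈ U.carrier, polyMap g x ∈ V.carrier) (s : Sec (B.aff V)) (x : Fin m → ℂ)
    (hx : x ∈ U.carrier), (B.pt U).symm ⟨x, hx⟩ ∈ Alg (pull U V g h s) ↔
      (B.pt V).symm ⟨polyMap g x, h x hx⟩ ∈ Alg s
  /-- direct sum (disjoint union of the two families) -/
  sum : ∀ {S : B.Obj}, Sec S → Sec S → Sec S
  alg_sum : ∀ {S : B.Obj} (s t : Sec S), Alg (sum s t) = Alg s ∩ Alg t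
  /-- pull back along `C → S` and push forward along the finite étale map `C → U` -/
  push : ∀ {S : B.Obj} {U : ZOpen 1}, B.Corr S U → Sec S → Sec (B.aff U)
  alg_push : ∀ {S : B.Obj} {U : ZOpen 1} (Γ : B.Corr S U) (s : Sec S) (u : Fin 1 → ℂ)
    (hu : u ∈ U.carrier), (B.pt U).symm ⟨u, hu⟩ ∈ Alg (push Γ s) ↔ B.fib Γ u ⊆ Alg s
  /-- the algebraic locus is a countable union of closed subvarieties: case of open subsets of the
  affine line -/
  countable_or_all : ∀ (U : ZOpen 1) (s : Sec (B.aff U)), Alg s = Set.univ ∨ (Alg s).Countable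
  /-- the algebraic locus is a countable union of closed subvarieties: case of the image of a curve -/
  alg_closure : ∀ {S : B.Obj} {U : ZOpen 1} (Γ : B.Corr S U) (s : Sec S),
    (⋃ u ∈ U.carrier, B.fib Γ u) ⊆ Alg s →
      @closure _ (B.zariski S) (⋃ u ∈ U.carrier, B.fib Γ u) ⊆ Alg s

variable {B : Bases}

/-- **Q1** for `T`: a flat section which is algebraic at one point is algebraic everywhere. -/
def Q1 (T : FlatTheory B) : Prop :=
  ∀ (S : B.Obj) (s : T.Sec S), (T.Alg s).Nonempty → T.Alg s = Set.univ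

/-- The algebraic locus of a flat section over an open subset of `ℂⁿ`, as a subset of `ℂⁿ`. -/
def locus (T : FlatTheory B) {n : ℕ} {U : ZOpen n} (s : T.Sec (B.aff U)) : Set (Fin n → ℂ) :=
  {x | ∃ h : x ∈ U.carrier, (B.pt U).symm ⟨x, h⟩ ∈ T.Alg s}

/-! ### Open sets -/

theorem eval_bind {m n : ℕ} (g : Fin n → MvPolynomial (Fin m) ℂ) (x : Fin m → ℂ)
    (p : MvPolynomial (Fin n) ℂ) : eval x (bind₁ g p) = eval (polyMap g x) p := by
  induction p using MvPolynomial.induction_on with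
  | C a => simp
  | add p q hp hq => simp [hp, hq]
  | mul_X p i hp => simp [hp, polyMap]

/-- preimage of an open set -/
def ZOpen.comap {m n : ℕ} (g : Fin n → MvPolynomial (Fin m) ℂ) (U : ZOpen n) : ZOpen m where
  carrier := {x | polyMap g x ∈ U.carrier}
  isOpen := by
    obtain ⟨I, hI⟩ := U.isOpen
    refine ⟨bind₁ g '' I, ?_⟩
    ext x
    rw [hI]
    simp only [Set.mem_ofPred_eq, Set.exists_mem_image, eval_bind]

/-- intersection of two open sets -/
def ZOpen.inter {n : ℕ} (U V : ZOpen n) : ZOpen n where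
  carrier := U.carrier ∩ V.carrier
  isOpen := by
    obtain ⟨I, hI⟩ := U.isOpen
    obtain ⟨J, hJ⟩ := V.isOpen
    refine ⟨{r | ∃ p ∈ I, ∃ q ∈ J, r = p * q}, ?_⟩
    ext x
    rw [hI, hJ]
    constructor
    · rintro ⟨⟨p, hp, hpx⟩, q, hq, hqx⟩
      exact ⟨p * q, ⟨p, hp, q, hq, rfl⟩, by rw [map_mul]; exact mul_ne_zero hpx hqx⟩
    · rintro ⟨_, ⟨p, hp, q, hq, rfl⟩, h⟩
      rw [map_mul] at h
      exact ⟨⟨p, hp, left_ne_zero_of_mul h⟩, q, hq, right_ne_zero_of_mul h⟩

/-- the whole space -/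
def ZOpen.all (n : ℕ) : ZOpen n where
  carrier := Set.univ
  isOpen := ⟨{1}, by ext x; simp⟩

theorem eval_line {n : ℕ} (a b : Fin n → ℂ) (c : ℂ) (p : MvPolynomial (Fin n) ℂ) :
    Polynomial.eval c (aeval (fun i => Polynomial.C (a i) +
      Polynomial.X * Polynomial.C (b i)) p) = eval (a + c • b) p := by
  induction p using MvPolynomial.induction_on with
  | C a => simp
  | add p q hp hq => simp only [map_add, Polynomial.eval_add, hp, hq]
  | mul_X p i hp => simp only [map_mul, Polynomial.eval_mul, hp, aeval_X, eval_X,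
      Polynomial.eval_add, Polynomial.eval_C, Polynomial.eval_X, Pi.add_apply, Pi.smul_apply,
      smul_eq_mul]

/-- the line `λ ↦ a + λ b` through a point of an open set -/
theorem exists_poly {n : ℕ} (U : ZOpen n) (a : Fin n → ℂ) (ha : a ∈ U.carrier) (b : Fin n → ℂ) :
    ∃ q : Polynomial ℂ, q ≠ 0 ∧ ∀ c : ℂ, q.eval c ≠ 0 → (a + c • b) ∈ U.carrier := by
  obtain ⟨I, hI⟩ := U.isOpen
  rw [hI] at ha ⊢
  obtain ⟨p, hp, hpa⟩ := ha
  have key := fun c => eval_line a b c p
  refine ⟨aeval (fun i => Polynomial.C (a i) + Polynomial.X * Polynomial.C (b i)) p, ?_, ?_⟩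
  · intro h
    have h0 := key 0
    rw [h] at h0
    simp only [Polynomial.eval_zero, zero_smul, add_zero] at h0
    exact hpa h0.symm
  · intro c hc
    rw [key c] at hc
    exact ⟨p, hp, hc⟩

theorem exists_ne_root (l : List (Polynomial ℂ)) (hl : ∀ q ∈ l, q ≠ 0) (E : Set ℂ)
    (hE : E.Countable) : ∃ c : ℂ, c ∉ E ∧ ∀ q ∈ l, q.eval c ≠ 0 := by
  have h1 : ({c : ℂ | ∃ q ∈ l, q.eval c = 0}).Finite := by
    have : {c : ℂ | ∃ q ∈ l, q.eval c = 0} = ⋃ q ∈ {q | q ∈ l}, {c : ℂ | q.eval c = 0} := by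
      ext c; simp
    rw [this]
    refine Set.Finite.biUnion (List.finite_toSet l) fun q hq => ?_
    exact Polynomial.finite_setOfPred_isRoot (hl q hq)
  have h2 : (E ∪ {c : ℂ | ∃ q ∈ l, q.eval c = 0}).Countable := hE.union h1.countable
  by_contra hcon
  push Not at hcon
  have h3 : (Set.univ : Set ℂ) ⊆ E ∪ {c : ℂ | ∃ q ∈ l, q.eval c = 0} := by
    intro c _
    by_cases hc : c ∈ E
    · exact Or.inl hc
    · exact Or.inr (hcon c hc)
  exact not_countable_complex (h2.mono h3)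

/-! ### Sections -/

variable (T : FlatTheory B)

theorem mem_locus {n : ℕ} {U : ZOpen n} (s : T.Sec (B.aff U)) (x : Fin n → ℂ)
    (hx : x ∈ U.carrier) : x ∈ locus T s ↔ (B.pt U).symm ⟨x, hx⟩ ∈ T.Alg s :=
  ⟨fun ⟨_, h⟩ => h, fun h => ⟨hx, h⟩⟩

theorem locus_sub {n : ℕ} {U : ZOpen n} (s : T.Sec (B.aff U)) : locus T s ⊆ U.carrier :=
  fun _ ⟨h, _⟩ => h

theorem locus_pull {m n : ℕ} (U : ZOpen m) (V : ZOpen n) (g : Fin n → MvPolynomial (Fin m) ℂ)
    (h : ∀ x ∈ U.carrier, polyMap g x ∈ V.carrier) (s : T.Sec (B.aff V)) :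
    locus T (T.pull U V g h s) = {x | x ∈ U.carrier ∧ polyMap g x ∈ locus T s} := by
  ext x
  constructor
  · rintro ⟨hx, hxa⟩
    exact ⟨hx, h x hx, (T.alg_pull U V g h s x hx).1 hxa⟩
  · rintro ⟨hx, _, hxa⟩
    exact ⟨hx, (T.alg_pull U V g h s x hx).2 hxa⟩

theorem locus_sum {n : ℕ} {U : ZOpen n} (s t : T.Sec (B.aff U)) :
    locus T (T.sum s t) = locus T s ∩ locus T t := by
  ext x
  constructor
  · rintro ⟨hx, hxa⟩
    rw [T.alg_sum] at hxa
    exact ⟨⟨hx, hxa.1⟩, hx, hxa.2⟩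
  · rintro ⟨⟨hx, h1⟩, _, h2⟩
    exact ⟨hx, by rw [T.alg_sum]; exact ⟨h1, h2⟩⟩

theorem locus_countable (U : ZOpen 1) (s : T.Sec (B.aff U)) (h : locus T s ≠ U.carrier) :
    (locus T s).Countable := by
  rcases T.countable_or_all U s with h1 | h1
  · exact absurd (Set.Subset.antisymm (locus_sub T s) fun x hx => ⟨hx, by rw [h1]; trivial⟩) h
  · have h2 : locus T s ⊆ (fun a : B.Pt (B.aff U) => ((B.pt U a : U.carrier) : Fin 1 → ℂ)) ''
        T.Alg s := by
      rintro x ⟨hx, hxa⟩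
      exact ⟨_, hxa, by simp⟩
    exact (h1.image _).mono h2

theorem id_map {n : ℕ} (x : Fin n → ℂ) : polyMap (fun i => (X i : MvPolynomial (Fin n) ℂ)) x = x := by
  funext i; simp [polyMap]

/-- restriction to a smaller open set -/
theorem exists_restrict {n : ℕ} (U V : ZOpen n) (h : U.carrier ⊆ V.carrier)
    (s : T.Sec (B.aff V)) : ∃ s' : T.Sec (B.aff U), locus T s' = U.carrier ∩ locus T s := by
  refine ⟨T.pull U V (fun i => X i) (fun x hx => by rw [id_map]; exact h hx) s, ?_⟩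
  rw [locus_pull]
  ext x
  rw [Set.mem_ofPred_eq, id_map]
  rfl

/-- **Step 1**: if Q1 fails, it fails over an open subset of the affine line. -/
theorem step1 (hT : ¬ Q1 T) : ∃ (U : ZOpen 1) (s : T.Sec (B.aff U)),
    (0 : Fin 1 → ℂ) ∈ locus T s ∧ locus T s ≠ U.carrier := by
  unfold Q1 at hT
  push Not at hT
  obtain ⟨S, s, ⟨x, hx⟩, hne⟩ := hT
  obtain ⟨y, hy⟩ := (Set.ne_univ_iff_exists_notMem _).1 hne
  obtain ⟨U, Γ, h0, hfib, hcl⟩ := B.exists_corr S x y
  refine ⟨U, T.push Γ s, ⟨h0, ?_⟩, ?_⟩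
  · rw [T.alg_push, hfib]
    exact Set.singleton_subset_iff.2 hx
  · intro hU
    apply hy
    refine T.alg_closure Γ s ?_ hcl
    refine Set.iUnion₂_subset fun u hu => ?_
    have h1 : u ∈ locus T (T.push Γ s) := by rw [hU]; exact hu
    obtain ⟨hu', h2⟩ := h1
    exact (T.alg_push Γ s u hu').1 h2

theorem mul_map (c : ℂ) (x : Fin 1 → ℂ) :
    polyMap (fun i => (C c * X i : MvPolynomial (Fin 1) ℂ)) x = c • x := by
  funext i; simp [polyMap]

/-- **Step 2**: if Q1 fails, there is a flat section over an open subset of the affine line whose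
algebraic locus is one point. -/
theorem step2 (hT : ¬ Q1 T) : ∃ (U : ZOpen 1) (s : T.Sec (B.aff U)), locus T s = {0} := by
  obtain ⟨U, s, h0, hne⟩ := step1 T hT
  have hcount := locus_countable T U s hne
  -- the bad scaling factors
  set E : Set ℂ := (fun q : (Fin 1 → ℂ) × (Fin 1 → ℂ) => q.2 0 / q.1 0) ''
    (locus T s ×ˢ locus T s) with hE
  have hEc : E.Countable := (hcount.prod hcount).image _
  obtain ⟨c, hcE, -⟩ := exists_ne_root [] (by simp) (E ∪ {0}) (hEc.union (Set.countable_singleton 0))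
  have hc0 : c ≠ 0 := fun h => hcE (Or.inr h)
  have hcE' : c ∉ E := fun h => hcE (Or.inl h)
  -- the two pull-backs
  set g : Fin 1 → MvPolynomial (Fin 1) ℂ := fun i => C c * X i with hg
  set W : ZOpen 1 := U.inter (U.comap g) with hW
  obtain ⟨s₁, hs₁⟩ := exists_restrict T W U (fun x hx => hx.1) s
  have hWg : ∀ x ∈ W.carrier, polyMap g x ∈ U.carrier := fun x hx => hx.2
  refine ⟨W, T.sum s₁ (T.pull W U g hWg s), ?_⟩
  rw [locus_sum, hs₁, locus_pull]
  ext x
  constructor
  · rintro ⟨⟨hxW, hx⟩, -, hcx⟩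
    rw [hg, mul_map] at hcx
    by_contra hx0
    have hx0' : x 0 ≠ 0 := by
      intro h
      apply hx0
      rw [Set.mem_singleton_iff]
      funext i
      rw [Fin.fin_one_eq_zero i, h]; rfl
    apply hcE'
    refine ⟨(x, c • x), ⟨hx, hcx⟩, ?_⟩
    simp only [Pi.smul_apply, smul_eq_mul]
    field_simp
  · intro hx
    rw [Set.mem_singleton_iff] at hx
    subst hx
    have h0U : (0 : Fin 1 → ℂ) ∈ U.carrier := locus_sub T s h0
    have h0W : (0 : Fin 1 → ℂ) ∈ W.carrier := by
      refine ⟨h0U, ?_⟩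
      change polyMap g 0 ∈ U.carrier
      rw [hg, mul_map, smul_zero]; exact h0U
    refine ⟨⟨h0W, h0⟩, h0W, ?_⟩
    rw [hg, mul_map, smul_zero]; exact h0

/-- **Step 3**: common zeros of finitely many polynomials. -/
theorem step3 {U : ZOpen 1} (s : T.Sec (B.aff U)) (hs : locus T s = {0}) {n : ℕ} (c : ℂ)
    (hc : c ≠ 0) (l : List (MvPolynomial (Fin n) ℂ)) :
    ∃ (W : ZOpen n) (t : T.Sec (B.aff W)),
      (∀ x, x ∈ W.carrier ↔ ∀ f ∈ l, (fun _ : Fin 1 => c * eval x f) ∈ U.carrier) ∧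
      locus T t = {x | ∀ f ∈ l, eval x f = 0} := by
  have h0U : (0 : Fin 1 → ℂ) ∈ U.carrier := locus_sub T s (by rw [hs]; rfl)
  induction l with
  | nil =>
    have hz : ∀ x : Fin n → ℂ, polyMap (fun _ : Fin 1 => (0 : MvPolynomial (Fin n) ℂ)) x = 0 := by
      intro x; funext i; simp [polyMap]
    refine ⟨ZOpen.all n, T.pull (ZOpen.all n) U (fun _ => 0) (fun x _ => by rw [hz]; exact h0U) s,
      fun x => by simp [ZOpen.all], ?_⟩
    rw [locus_pull]
    ext x
    simp only [Set.mem_ofPred_eq, hz, hs]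
    simp [ZOpen.all]
  | cons f l ih =>
    obtain ⟨W, t, hW, ht⟩ := ih
    set g : Fin 1 → MvPolynomial (Fin n) ℂ := fun _ => C c * f with hg
    have hgx : ∀ x, polyMap g x = fun _ => c * eval x f := by
      intro x; funext i; simp [polyMap, hg]
    set W' : ZOpen n := W.inter (U.comap g) with hW'
    obtain ⟨t₁, ht₁⟩ := exists_restrict T W' W (fun x hx => hx.1) t
    have hmem : ∀ x, x ∈ W'.carrier ↔ x ∈ W.carrier ∧ (fun _ : Fin 1 => c * eval x f) ∈ U.carrier := by
      intro x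
      change x ∈ W.carrier ∧ polyMap g x ∈ U.carrier ↔ _
      rw [hgx]
    have hWg : ∀ x ∈ W'.carrier, polyMap g x ∈ U.carrier := fun x hx => hx.2
    refine ⟨W', T.sum t₁ (T.pull W' U g hWg s), ?_, ?_⟩
    · intro x
      rw [hmem, hW x]
      simp only [List.mem_cons, forall_eq_or_imp]
      exact and_comm
    · rw [locus_sum, ht₁, locus_pull, ht, hs]
      ext x
      simp only [Set.mem_inter_iff, Set.mem_ofPred_eq, Set.mem_singleton_iff, List.mem_cons,
        forall_eq_or_imp, hgx]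
      constructor
      · rintro ⟨⟨-, h1⟩, -, h2⟩
        have h3 := congrFun h2 0
        simp only [Pi.zero_apply, mul_eq_zero] at h3
        exact ⟨h3.resolve_left hc, h1⟩
      · rintro ⟨h1, h2⟩
        have h3 : (fun _ : Fin 1 => c * eval x f) = 0 := by
          funext i; simp [h1]
        have h4 : x ∈ W.carrier := by
          rw [hW]
          intro q hq
          rw [h2 q hq, mul_zero]
          exact h0U
        have h5 : x ∈ W'.carrier := by
          rw [hmem, h3]; exact ⟨h4, h0U⟩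
        exact ⟨⟨h5, h2⟩, h5, h3⟩

/-- a closed set is the set of the zeros of finitely many polynomials -/
theorem closed_finite {n : ℕ} {Z : Set (Fin n → ℂ)} (hZ : ZClosed Z) :
    ∃ l : List (MvPolynomial (Fin n) ℂ), Z = {x | ∀ f ∈ l, eval x f = 0} := by
  obtain ⟨I, rfl⟩ := hZ
  have hfg : (Submodule.span (MvPolynomial (Fin n) ℂ) I).FG := IsNoetherian.noetherian _
  rw [Submodule.fg_span_iff_fg_span_finset_subset] at hfg
  obtain ⟨s, hs, hspan⟩ := hfg
  refine ⟨s.toList, ?_⟩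
  ext x
  simp only [Set.mem_ofPred_eq, Finset.mem_toList]
  constructor
  · intro h f hf
    exact h f (hs hf)
  · intro h p hp
    have h1 : p ∈ Submodule.span (MvPolynomial (Fin n) ℂ) (s : Set (MvPolynomial (Fin n) ℂ)) := by
      rw [← hspan]; exact Submodule.subset_span hp
    refine Submodule.span_induction (p := fun q _ => eval x q = 0) ?_ ?_ ?_ ?_ h1
    · intro q hq; exact h q hq
    · simp
    · intro q r _ _ hq hr; rw [map_add, hq, hr, add_zero]
    · intro a q _ hq; rw [smul_eq_mul, map_mul, hq, mul_zero]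

/-- **Dichotomy**: if Q1 fails, every closed subset is an algebraic locus. -/
theorem realise (hT : ¬ Q1 T) {n : ℕ} (Z F : Set (Fin n → ℂ)) (hZ : ZClosed Z)
    (hF : F.Finite) : ∃ U : ZOpen n, Z ⊆ U.carrier ∧ F ⊆ U.carrier ∧
      ∃ s : T.Sec (B.aff U), locus T s = Z := by
  obtain ⟨U, s, hs⟩ := step2 T hT
  have h0U : (0 : Fin 1 → ℂ) ∈ U.carrier := locus_sub T s (by rw [hs]; rfl)
  obtain ⟨l, rfl⟩ := closed_finite hZ
  -- choice of the scaling factor
  choose q hq0 hq using fun b : Fin 1 → ℂ => exists_poly U 0 h0U b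
  obtain ⟨c, hc0, hc⟩ := exists_ne_root
    ((hF.toFinset.toList.product l).map fun p => q (fun _ => eval p.1 p.2))
    (by
      intro r hr
      rw [List.mem_map] at hr
      obtain ⟨p, -, rfl⟩ := hr
      exact hq0 _) {0} (Set.countable_singleton 0)
  obtain ⟨W, t, hW, ht⟩ := step3 T s hs c hc0 l
  refine ⟨W, ?_, ?_, t, ht⟩
  · intro x hx
    rw [hW]
    intro f hf
    have : eval x f = 0 := hx f hf
    rw [this, mul_zero]; exact h0U
  · intro x hx
    rw [hW]
    intro f hf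
    have h1 := hc (q (fun _ => eval x f)) (by
      rw [List.mem_map]
      exact ⟨(x, f), List.mem_product.2 ⟨by simpa using hx, hf⟩, rfl⟩)
    have h2 := hq (fun _ => eval x f) c h1
    rw [zero_add] at h2
    exact h2

/-! ### Equivalent forms -/

/-- a nonempty open subset of the affine line is infinite -/
theorem infinite_open (U : ZOpen 1) (hU : U.carrier.Nonempty) : U.carrier.Infinite := by
  intro hfin
  obtain ⟨x, hx⟩ := hU
  obtain ⟨q, hq0, hq⟩ := exists_poly U x hx (fun _ => 1)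
  set E : Set ℂ := (fun y : Fin 1 → ℂ => y 0 - x 0) '' U.carrier with hE
  have hEc : E.Countable := (hfin.image _).countable
  obtain ⟨c, hcE, hc⟩ := exists_ne_root [q] (by simpa using hq0) E hEc
  apply hcE
  exact ⟨_, hq c (hc q (by simp)), by simp⟩

theorem q1_locus (hT : Q1 T) {U : ZOpen 1} (s : T.Sec (B.aff U)) (h : (locus T s).Nonempty) :
    (locus T s).Infinite := by
  have h1 : locus T s = U.carrier := by
    obtain ⟨x, hx, hxa⟩ := h
    have h2 := hT _ s ⟨_, hxa⟩
    exact Set.Subset.antisymm (locus_sub T s) fun y hy => ⟨hy, by rw [h2]; trivial⟩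
  rw [h1]
  exact infinite_open U (h.mono (locus_sub T s))

/-- the points `0, 1, …, N - 1` of the affine line -/
def pts (N : ℕ) : Set (Fin 1 → ℂ) := (fun (i : ℕ) (_ : Fin 1) => (i : ℂ)) '' {i | i < N}

theorem pts_closed (N : ℕ) : ZClosed (pts N) := by
  refine ⟨{∏ i ∈ Finset.range N, (X 0 - C (i : ℂ))}, ?_⟩
  ext x
  simp only [pts, Set.mem_image, Set.mem_ofPred_eq, Set.mem_singleton_iff, forall_eq, map_prod,
    map_sub, eval_X, eval_C, Finset.prod_eq_zero_iff, Finset.mem_range]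
  constructor
  · rintro ⟨i, hi, rfl⟩
    exact ⟨i, hi, by simp⟩
  · rintro ⟨i, hi, h⟩
    refine ⟨i, hi, ?_⟩
    funext j
    rw [Fin.fin_one_eq_zero j]
    exact (sub_eq_zero.1 h).symm

theorem pts_card (N : ℕ) : (pts N).encard = N := by
  unfold pts
  rw [Function.Injective.encard_image]
  · have : {i : ℕ | i < N} = ((Finset.range N : Finset ℕ) : Set ℕ) := by ext i; simp
    rw [this, Set.encard_coe_eq_coe_finsetCard, Finset.card_range]
  · intro i j h
    have h1 : (i : ℂ) = j := congrFun h 0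
    exact_mod_cast h1

theorem single_closed (a : ℂ) : ZClosed ({fun _ => a} : Set (Fin 1 → ℂ)) := by
  refine ⟨{X 0 - C a}, ?_⟩
  ext x
  simp only [Set.mem_singleton_iff, Set.mem_ofPred_eq, forall_eq, map_sub, eval_X, eval_C]
  constructor
  · rintro rfl; simp
  · intro h
    funext j
    rw [Fin.fin_one_eq_zero j]
    exact sub_eq_zero.1 h

/-- **Main theorem.** -/
theorem result (B : Bases) (T : FlatTheory B) :
    (Q1 T ↔ ∃ N : ℕ, 1 ≤ N ∧ ∀ (U : ZOpen 1) (s : T.Sec (B.aff U)),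
      (N : ℕ∞) ≤ (locus T s).encard → ((N + 1 : ℕ) : ℕ∞) ≤ (locus T s).encard) ∧
    (Q1 T ↔ ∃ (n : ℕ) (Z : Set (Fin n → ℂ)), ZClosed Z ∧ Z.Nonempty ∧ Z ≠ Set.univ ∧
      ¬ ∃ (U : ZOpen n) (s : T.Sec (B.aff U)), Z ⊆ U.carrier ∧ locus T s = Z) ∧
    (Q1 T ↔ ∀ (S : B.Obj) (s t : T.Sec S), T.Alg s ⊆ T.Alg t ∨ T.Alg t ⊆ T.Alg s) ∧
    (¬ Q1 T → ∀ (n : ℕ) (Z F : Set (Fin n → ℂ)), ZClosed Z → F.Finite →
      ∃ (U : ZOpen n) (s : T.Sec (B.aff U)), Z ⊆ U.carrier ∧ F ⊆ U.carrier ∧ locus T s = Z) := by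
  have hreal : ¬ Q1 T → ∀ (n : ℕ) (Z F : Set (Fin n → ℂ)), ZClosed Z → F.Finite →
      ∃ (U : ZOpen n) (s : T.Sec (B.aff U)), Z ⊆ U.carrier ∧ F ⊆ U.carrier ∧ locus T s = Z := by
    intro hT n Z F hZ hF
    obtain ⟨U, h1, h2, s, hs⟩ := realise T hT Z F hZ hF
    exact ⟨U, s, h1, h2, hs⟩
  refine ⟨⟨?_, ?_⟩, ⟨?_, ?_⟩, ⟨?_, ?_⟩, hreal⟩
  · intro hT
    refine ⟨1, le_rfl, fun U s h => ?_⟩
    have h1 : (locus T s).Nonempty := by
      rw [← Set.encard_pos]
      exact lt_of_lt_of_le (by norm_num) h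
    have h2 := q1_locus T hT s h1
    rw [Set.encard_eq_top_iff.2 h2]
    exact le_top
  · rintro ⟨N, -, hN⟩
    by_contra hT
    obtain ⟨U, s, -, -, hs⟩ := hreal hT 1 (pts N) ∅ (pts_closed N) Set.finite_empty
    have h1 := hN U s (by rw [hs, pts_card])
    rw [hs, pts_card] at h1
    have h2 : N + 1 ≤ N := by exact_mod_cast h1
    omega
  · intro hT
    refine ⟨1, {fun _ => 0}, single_closed 0, Set.singleton_nonempty _, ?_, ?_⟩
    · intro h
      have h1 : (fun _ => 1 : Fin 1 → ℂ) ∈ ({fun _ => 0} : Set (Fin 1 → ℂ)) := by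
        rw [h]; trivial
      have h2 := congrFun (Set.mem_singleton_iff.1 h1) 0
      exact one_ne_zero h2
    · rintro ⟨U, s, -, hs⟩
      have h1 := q1_locus T hT s (by rw [hs]; exact Set.singleton_nonempty _)
      rw [hs] at h1
      exact h1 (Set.finite_singleton _)
  · rintro ⟨n, Z, hZ, -, -, hne⟩
    by_contra hT
    obtain ⟨U, s, h1, -, hs⟩ := hreal hT n Z ∅ hZ Set.finite_empty
    exact hne ⟨U, s, h1, hs⟩
  · intro hT S s t
    by_cases h : (T.Alg t).Nonempty
    · left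
      rw [hT S t h]
      exact Set.subset_univ _
    · right
      rw [Set.not_nonempty_iff_eq_empty.1 h]
      exact Set.empty_subset _
  · intro hchain
    by_contra hT
    obtain ⟨U, s, hU0, hU1, hs⟩ := hreal hT 1 {fun _ => 0} {fun _ => 1} (single_closed 0)
      (Set.finite_singleton _)
    obtain ⟨V, t, hV1, hV0, ht⟩ := hreal hT 1 {fun _ => 1} {fun _ => 0} (single_closed 1)
      (Set.finite_singleton _)
    obtain ⟨s', hs'⟩ := exists_restrict T (U.inter V) U (fun x hx => hx.1) s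
    obtain ⟨t', ht'⟩ := exists_restrict T (U.inter V) V (fun x hx => hx.2) t
    have m0 : (fun _ => 0 : Fin 1 → ℂ) ∈ (U.inter V).carrier :=
      ⟨hU0 (Set.mem_singleton _), hV0 (Set.mem_singleton _)⟩
    have m1 : (fun _ => 1 : Fin 1 → ℂ) ∈ (U.inter V).carrier :=
      ⟨hU1 (Set.mem_singleton _), hV1 (Set.mem_singleton _)⟩
    have l0 : (fun _ => 0 : Fin 1 → ℂ) ∈ locus T s' := by
      rw [hs', hs]; exact ⟨m0, rfl⟩
    have l1 : (fun _ => 1 : Fin 1 → ℂ) ∈ locus T t' := by
      rw [ht', ht]; exact ⟨m1, rfl⟩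
    have n0 : (fun _ => 0 : Fin 1 → ℂ) ∉ locus T t' := by
      rw [ht', ht]
      rintro ⟨-, h⟩
      have h2 := congrFun (Set.mem_singleton_iff.1 h) 0
      exact zero_ne_one h2
    have n1 : (fun _ => 1 : Fin 1 → ℂ) ∉ locus T s' := by
      rw [hs', hs]
      rintro ⟨-, h⟩
      have h2 := congrFun (Set.mem_singleton_iff.1 h) 0
      exact one_ne_zero h2
    rcases hchain _ s' t' with h | h
    · exact n0 ⟨m0, h ((mem_locus T s' _ m0).1 l0)⟩
    · exact n1 ⟨m1, h ((mem_locus T t' _ m1).1 l1)⟩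

end Pool.Agent.Work.MP_298761_al.AlgebraicLoci
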